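import Pool.Agent.W187.WP.Stmts2

/-!
# WP-EN: the logarithmic kernel against an autocorrelation
-/

set_option autoImplicit false

open MeasureTheory Set
open Pool.Agent.W187.WP

namespace Pool.Agent.W836.WP

/-- averaged derivative -/
noncomputable def sl (h : ℝ → ℝ) (x y : ℝ) : ℝ := ∫ t in (0 : ℝ)..1, deriv h (x + t * (y - x))

/-- the difference quotient kernel -/
noncomputable def FF (h : ℝ → ℝ) (x y : ℝ) : ℝ := (y - x) * sl h x y ^ 2

theorem continuous_deriv' {h : ℝ → ℝ} (hh : ContDiff ℝ 1 h) : Continuous (deriv h) :=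
  hh.continuous_deriv le_rfl

theorem sl_continuous {h : ℝ → ℝ} (hh : ContDiff ℝ 1 h) :
    Continuous (fun p : ℝ × ℝ => sl h p.1 p.2) := by
  unfold sl
  apply intervalIntegral.continuous_parametric_intervalIntegral_of_continuous'
  have := continuous_deriv' hh
  unfold Function.uncurry
  fun_prop

theorem sub_eq {h : ℝ → ℝ} (hh : ContDiff ℝ 1 h) (x y : ℝ) :
    h y - h x = (y - x) * sl h x y := by
  unfold sl
  rw [← intervalIntegral.integral_const_mul]
  have hd : ∀ t ∈ uIcc (0 : ℝ) 1, HasDerivAt (fun t => h (x + t * (y - x)))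
      ((y - x) * deriv h (x + t * (y - x))) t := by
    intro t _
    have h1 : HasDerivAt h (deriv h (x + t * (y - x))) (x + t * (y - x)) :=
      ((hh.differentiable (by norm_num)) _).hasDerivAt
    have h2 : HasDerivAt (fun t => x + t * (y - x)) (y - x) t := by
      simpa using ((hasDerivAt_id t).mul_const (y - x)).const_add x
    have h3 := h1.comp t h2
    rw [mul_comm]
    exact h3
  have hc : Continuous (fun t => (y - x) * deriv h (x + t * (y - x))) := by
    have := continuous_deriv' hh
    fun_prop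
  rw [intervalIntegral.integral_eq_sub_of_hasDerivAt hd (hc.intervalIntegrable _ _)]
  simp

theorem FF_continuous {h : ℝ → ℝ} (hh : ContDiff ℝ 1 h) :
    Continuous (Function.uncurry (FF h)) := by
  have h1 := sl_continuous hh
  have : Function.uncurry (FF h) = fun p : ℝ × ℝ => (p.2 - p.1) * sl h p.1 p.2 ^ 2 := by
    funext p; rfl
  rw [this]
  fun_prop

theorem FF_eq {h : ℝ → ℝ} (hh : ContDiff ℝ 1 h) (x y : ℝ) :
    (h y - h x) ^ 2 / (y - x) = FF h x y := by
  unfold FF
  rw [sub_eq hh x y]
  rcases eq_or_ne (y - x) 0 with e | e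
  · rw [e]; simp
  · field_simp

theorem EE_eq {h : ℝ → ℝ} (hh : ContDiff ℝ 1 h) :
    EE h = ∫ x in (-1 : ℝ)..1, ∫ y in x..1, FF h x y := by
  unfold EE
  simp only [FF_eq hh]

/-- the first part of the autocorrelation difference -/
noncomputable def G1 (h : ℝ → ℝ) (s : ℝ) : ℝ := ∫ x in (-1 : ℝ)..(1 - s), FF h x (x + s)

theorem G1_continuous {h : ℝ → ℝ} (hh : ContDiff ℝ 1 h) : Continuous (G1 h) := by
  unfold G1
  apply intervalIntegral.continuous_parametric_intervalIntegral_of_continuous
  · have h1 := FF_continuous hh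
    have : (Function.uncurry fun s x => FF h x (x + s)) =
        fun p : ℝ × ℝ => Function.uncurry (FF h) (p.2, p.2 + p.1) := by
      funext p; rfl
    rw [this]
    fun_prop
  · fun_prop

theorem G1_integral (tri : S_TRI) {h : ℝ → ℝ} (hh : ContDiff ℝ 1 h) :
    ∫ s in (0 : ℝ)..2, G1 h s = EE h := by
  have h1 := intervalIntegral.integral_comp_sub_left (a := -1) (b := 1) (G1 h) 1
  have e1 : (1 : ℝ) - 1 = 0 := by norm_num
  have e2 : (1 : ℝ) - -1 = 2 := by norm_num
  rw [e1, e2] at h1
  rw [← h1, EE_eq hh]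
  have hF := FF_continuous hh
  have hc : Continuous (Function.uncurry fun x y => FF h x (x + 1 - y)) := by
    have : (Function.uncurry fun x y => FF h x (x + 1 - y)) =
        fun p : ℝ × ℝ => Function.uncurry (FF h) (p.1, p.1 + 1 - p.2) := by
      funext p; rfl
    rw [this]
    fun_prop
  have h2 := tri (fun x y => FF h x (x + 1 - y)) hc
  have h3 : ∀ y : ℝ, G1 h (1 - y) = ∫ x in (-1 : ℝ)..y, FF h x (x + 1 - y) := by
    intro y
    unfold G1
    have e : (1 : ℝ) - (1 - y) = y := by ring
    rw [e]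
    apply intervalIntegral.integral_congr
    intro x _
    simp only
    congr 1
    ring
  simp only [h3]
  rw [← h2]
  apply intervalIntegral.integral_congr
  intro x _
  simp only
  have h4 := intervalIntegral.integral_comp_sub_left (a := x) (b := 1) (FF h x) (x + 1)
  rw [h4]
  congr 1
  · ring
  · ring

/-- the autocorrelation as an integral over an interval -/
theorem GG_eq {h : ℝ → ℝ} (hz : ∀ x, 1 ≤ |x| → h x = 0) {s : ℝ} (hs2 : s ≤ 2) :
    GG h s = ∫ x in (-1 : ℝ)..(1 - s), h (x + s) * h x := by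
  unfold GG
  rw [intervalIntegral.integral_of_le (by linarith)]
  symm
  apply MeasureTheory.setIntegral_eq_integral_of_forall_compl_eq_zero
  intro x hx
  rw [mem_Ioc, not_and_or, not_lt, not_le] at hx
  rcases hx with hx | hx
  · rw [hz x (by rw [abs_of_neg (by linarith)]; linarith), mul_zero]
  · rw [hz (x + s) (by rw [abs_of_pos (by linarith)]; linarith), zero_mul]

/-- the boundary part -/
noncomputable def RR (h : ℝ → ℝ) (s : ℝ) : ℝ :=
  (∫ x in (1 - s)..1, h x ^ 2) + ∫ x in (-1 : ℝ)..(s - 1), h x ^ 2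

theorem GG_sub {h : ℝ → ℝ} (hh : ContDiff ℝ 1 h) (hz : ∀ x, 1 ≤ |x| → h x = 0) {s : ℝ}
    (hs0 : 0 < s) (hs2 : s ≤ 2) :
    (GG h 0 - GG h s) / s = 1 / 2 * G1 h s + 1 / 2 * (RR h s / s) := by
  have hc : Continuous h := hh.continuous
  have i1 : ∀ a b : ℝ, IntervalIntegrable (fun x => h x ^ 2) volume a b := fun a b =>
    (by fun_prop : Continuous fun x => h x ^ 2).intervalIntegrable a b
  have e0 : GG h 0 = ∫ x in (-1 : ℝ)..1, h x ^ 2 := by
    rw [GG_eq hz (by norm_num), sub_zero]
    apply intervalIntegral.integral_congr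
    intro x _
    simp only [add_zero]
    ring
  have e1 : s * G1 h s = ∫ x in (-1 : ℝ)..(1 - s), (h (x + s) - h x) ^ 2 := by
    unfold G1
    rw [← intervalIntegral.integral_const_mul]
    apply intervalIntegral.integral_congr
    intro x _
    simp only
    rw [← FF_eq hh]
    have : x + s - x = s := by ring
    rw [this]
    field_simp
  have e2 : (∫ x in (-1 : ℝ)..(1 - s), (h (x + s) - h x) ^ 2) =
      (∫ x in (-1 : ℝ)..(1 - s), h (x + s) ^ 2) + (∫ x in (-1 : ℝ)..(1 - s), h x ^ 2)
        - 2 * GG h s := by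
    rw [GG_eq hz hs2, ← intervalIntegral.integral_const_mul, ← intervalIntegral.integral_add,
      ← intervalIntegral.integral_sub]
    · apply intervalIntegral.integral_congr
      intro x _
      simp only
      ring
    · exact (by fun_prop : Continuous fun x => h (x + s) ^ 2 + h x ^ 2).intervalIntegrable _ _
    · exact (by fun_prop : Continuous fun x => 2 * (h (x + s) * h x)).intervalIntegrable _ _
    · exact (by fun_prop : Continuous fun x => h (x + s) ^ 2).intervalIntegrable _ _
    · exact i1 _ _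
  have e3 : (∫ x in (-1 : ℝ)..(1 - s), h (x + s) ^ 2) = ∫ x in (s - 1)..1, h x ^ 2 := by
    have := intervalIntegral.integral_comp_add_right (a := -1) (b := 1 - s) (fun x => h x ^ 2) s
    rw [this]
    congr 1
    · ring
    · ring
  have e4 : (∫ x in (-1 : ℝ)..(s - 1), h x ^ 2) + (∫ x in (s - 1)..1, h x ^ 2) =
      ∫ x in (-1 : ℝ)..1, h x ^ 2 :=
    intervalIntegral.integral_add_adjacent_intervals (i1 _ _) (i1 _ _)
  have e5 : (∫ x in (-1 : ℝ)..(1 - s), h x ^ 2) + (∫ x in (1 - s)..1, h x ^ 2) =
      ∫ x in (-1 : ℝ)..1, h x ^ 2 :=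
    intervalIntegral.integral_add_adjacent_intervals (i1 _ _) (i1 _ _)
  have e6 : GG h 0 - GG h s = 1 / 2 * (s * G1 h s) + 1 / 2 * RR h s := by
    unfold RR
    rw [e1, e2, e3, e0]
    linarith
  rw [e6]
  field_simp

theorem RR_continuous {h : ℝ → ℝ} (hh : ContDiff ℝ 1 h) : Continuous (RR h) := by
  have hc : Continuous h := hh.continuous
  have i1 : ∀ a b : ℝ, IntervalIntegrable (fun x => h x ^ 2) volume a b := fun a b =>
    (by fun_prop : Continuous fun x => h x ^ 2).intervalIntegrable a b
  have hp : Continuous (fun u : ℝ => ∫ x in (-1 : ℝ)..u, h x ^ 2) :=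
    intervalIntegral.continuous_primitive i1 _
  have : RR h = fun s => (∫ x in (-1 : ℝ)..1, h x ^ 2) - (∫ x in (-1 : ℝ)..(1 - s), h x ^ 2)
      + ∫ x in (-1 : ℝ)..(s - 1), h x ^ 2 := by
    funext s
    unfold RR
    rw [← intervalIntegral.integral_add_adjacent_intervals (i1 (-1) (1 - s)) (i1 (1 - s) 1)]
    ring
  rw [this]
  exact (continuous_const.sub (hp.comp (by fun_prop))).add (hp.comp (by fun_prop))

theorem RR_nonneg {h : ℝ → ℝ} {s : ℝ} (hs0 : 0 ≤ s) : 0 ≤ RR h s := by
  unfold RR
  apply add_nonneg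
  · exact intervalIntegral.integral_nonneg (by linarith) fun x _ => sq_nonneg _
  · exact intervalIntegral.integral_nonneg (by linarith) fun x _ => sq_nonneg _

theorem exists_bound {h : ℝ → ℝ} (hh : ContDiff ℝ 1 h) :
    ∃ C : ℝ, 0 ≤ C ∧ ∀ s ∈ Icc (0 : ℝ) 2, RR h s ≤ C * s := by
  have hc : Continuous h := hh.continuous
  obtain ⟨C, hC⟩ := (isCompact_Icc (a := (-1 : ℝ)) (b := 1)).exists_bound_of_continuousOn
    (f := fun x => h x ^ 2) (by fun_prop)
  have hC0 : 0 ≤ C := (norm_nonneg _).trans (hC 0 (by constructor <;> norm_num))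
  refine ⟨2 * C, by positivity, ?_⟩
  intro s hs
  have b1 : ‖∫ x in (1 - s)..1, h x ^ 2‖ ≤ C * |1 - (1 - s)| := by
    apply intervalIntegral.norm_integral_le_of_norm_le_const
    intro x hx
    rw [uIoc_of_le (by linarith [hs.1])] at hx
    exact hC x ⟨by linarith [hx.1, hs.2], hx.2⟩
  have b2 : ‖∫ x in (-1 : ℝ)..(s - 1), h x ^ 2‖ ≤ C * |s - 1 - (-1)| := by
    apply intervalIntegral.norm_integral_le_of_norm_le_const
    intro x hx
    rw [uIoc_of_le (by linarith [hs.1])] at hx
    exact hC x ⟨hx.1.le, by linarith [hx.2, hs.2]⟩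
  rw [show (1 : ℝ) - (1 - s) = s by ring, abs_of_nonneg hs.1] at b1
  rw [show s - 1 - (-1) = s by ring, abs_of_nonneg hs.1] at b2
  have c1 := (Real.le_norm_self _).trans b1
  have c2 := (Real.le_norm_self _).trans b2
  unfold RR
  linarith

theorem RRdiv_integrable {h : ℝ → ℝ} (hh : ContDiff ℝ 1 h) :
    IntervalIntegrable (fun s => RR h s / s) volume 0 2 := by
  obtain ⟨C, hC0, hC⟩ := exists_bound hh
  rw [intervalIntegrable_iff_integrableOn_Ioc_of_le (by norm_num)]
  have hfin : IntegrableOn (fun _ : ℝ => C) (Ioc (0 : ℝ) 2) volume :=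
    integrableOn_const (by simp)
  refine Integrable.mono' hfin ?_ ?_
  · apply ContinuousOn.aestronglyMeasurable _ measurableSet_Ioc
    apply ContinuousOn.div (RR_continuous hh).continuousOn continuousOn_id
    intro x hx
    exact (ne_of_gt hx.1)
  · rw [ae_restrict_iff' measurableSet_Ioc]
    refine Filter.Eventually.of_forall ?_
    intro s hs
    rw [Real.norm_of_nonneg (div_nonneg (RR_nonneg hs.1.le) hs.1.le), div_le_iff₀ hs.1]
    exact hC s ⟨hs.1.le, hs.2⟩

/-- the regularised kernel -/
noncomputable def ke (e s : ℝ) : ℝ := 1 / (|s| + e)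

theorem ke_continuous {e : ℝ} (he : 0 < e) : Continuous (ke e) := by
  unfold ke
  apply Continuous.div continuous_const (by fun_prop)
  intro x
  positivity

theorem ke_integral {e a : ℝ} (he : 0 < e) (ha : 0 ≤ a) (ha2 : a ≤ 2) :
    ∫ s in a..2, ke e s = Real.log (2 + e) - Real.log (a + e) := by
  have hd : ∀ s ∈ uIcc a 2, HasDerivAt (fun s => Real.log (s + e)) (ke e s) s := by
    intro s hs
    rw [uIcc_of_le ha2] at hs
    have hs0 : 0 ≤ s := ha.trans hs.1
    have h1 : HasDerivAt (fun s => s + e) 1 s := (hasDerivAt_id s).add_const e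
    have h2 := h1.log (by linarith)
    unfold ke
    rw [abs_of_nonneg hs0]
    exact h2
  rw [intervalIntegral.integral_eq_sub_of_hasDerivAt hd ((ke_continuous he).intervalIntegrable _ _)]

/-- the first half of the boundary part against the regularised kernel -/
theorem part1 (tri : S_TRI) {q : ℝ → ℝ} (hq : Continuous q) {e : ℝ} (he : 0 < e) :
    ∫ s in (0 : ℝ)..2, ke e s * (∫ x in (1 - s)..1, q x) =
      ∫ x in (-1 : ℝ)..1, q x * (Real.log (2 + e) - Real.log (1 - x + e)) := by
  have hk := ke_continuous he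
  have h1 := intervalIntegral.integral_comp_sub_left (a := -1) (b := 1)
    (fun s => ke e s * (∫ x in (1 - s)..1, q x)) 1
  have e1 : (1 : ℝ) - 1 = 0 := by norm_num
  have e2 : (1 : ℝ) - -1 = 2 := by norm_num
  rw [e1, e2] at h1
  rw [← h1]
  have h2 := tri (fun y x => ke e (1 - y) * q x) (by
    unfold Function.uncurry
    fun_prop)
  have h3 : ∀ y : ℝ, ke e (1 - y) * (∫ x in (1 - (1 - y))..1, q x) =
      ∫ x in y..1, ke e (1 - y) * q x := by
    intro y
    rw [show (1 : ℝ) - (1 - y) = y by ring, intervalIntegral.integral_const_mul]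
  simp only [h3]
  rw [h2]
  apply intervalIntegral.integral_congr
  intro x hx
  rw [uIcc_of_le (by norm_num)] at hx
  simp only
  rw [intervalIntegral.integral_mul_const, mul_comm]
  congr 1
  have h4 := intervalIntegral.integral_comp_sub_left (a := -1) (b := x) (ke e) 1
  rw [h4, e2, ke_integral he (by linarith [hx.2]) (by linarith [hx.1])]

/-- the second half of the boundary part against the regularised kernel -/
theorem part2 (tri : S_TRI) {q : ℝ → ℝ} (hq : Continuous q) {e : ℝ} (he : 0 < e) :
    ∫ s in (0 : ℝ)..2, ke e s * (∫ x in (-1 : ℝ)..(s - 1), q x) =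
      ∫ x in (-1 : ℝ)..1, q x * (Real.log (2 + e) - Real.log (1 + x + e)) := by
  have hk := ke_continuous he
  have h1 := intervalIntegral.integral_comp_add_right (a := -1) (b := 1)
    (fun s => ke e s * (∫ x in (-1 : ℝ)..(s - 1), q x)) 1
  have e1 : (-1 : ℝ) + 1 = 0 := by norm_num
  have e2 : (1 : ℝ) + 1 = 2 := by norm_num
  rw [e1, e2] at h1
  rw [← h1]
  have h2 := tri (fun x y => ke e (y + 1) * q x) (by
    unfold Function.uncurry
    fun_prop)
  have h3 : ∀ y : ℝ, ke e (y + 1) * (∫ x in (-1 : ℝ)..(y + 1 - 1), q x) =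
      ∫ x in (-1 : ℝ)..y, ke e (y + 1) * q x := by
    intro y
    rw [show y + 1 - 1 = y by ring, intervalIntegral.integral_const_mul]
  simp only [h3]
  rw [← h2]
  apply intervalIntegral.integral_congr
  intro x hx
  rw [uIcc_of_le (by norm_num)] at hx
  simp only
  rw [intervalIntegral.integral_mul_const, mul_comm]
  congr 1
  have h4 := intervalIntegral.integral_comp_add_right (a := x) (b := 1) (ke e) 1
  rw [h4, e2, ke_integral he (by linarith [hx.1]) (by linarith [hx.2]), add_comm x 1]

/-- the logarithm series -/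
theorem neg_log_ge {u : ℝ} (h0 : |u| < 1) : Um u ≤ -(1 / 2) * Real.log (1 - u ^ 2) := by
  have hu : |u ^ 2| < 1 := by
    rw [abs_pow]
    exact pow_lt_one₀ (abs_nonneg _) h0 (by norm_num)
  have h1 := Real.hasSum_pow_div_log_of_abs_lt_one hu
  have h2 : ∑ k ∈ Finset.range 32, (u ^ 2) ^ (k + 1) / ((k : ℝ) + 1) ≤ -Real.log (1 - u ^ 2) := by
    apply sum_le_hasSum _ _ h1
    intro k _
    positivity
  have h3 : Um u = 1 / 2 * ∑ k ∈ Finset.range 32, (u ^ 2) ^ (k + 1) / ((k : ℝ) + 1) := by
    unfold Um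
    rw [Finset.mul_sum]
    apply Finset.sum_congr rfl
    intro k _
    rw [← pow_mul]
    field_simp
  rw [h3]
  linarith

theorem Um_scale {x e : ℝ} (he : 0 < e) : (1 + e) ^ (-64 : ℤ) * Um x ≤ Um (x / (1 + e)) := by
  unfold Um
  rw [Finset.mul_sum]
  apply Finset.sum_le_sum
  intro k hk
  rw [Finset.mem_range] at hk
  rw [div_pow, ← mul_div_assoc]
  apply div_le_div_of_nonneg_right _ (by positivity)
  rw [mul_comm, div_eq_mul_inv]
  apply mul_le_mul_of_nonneg_left _ (by rw [pow_mul]; positivity)
  rw [zpow_neg]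
  apply inv_anti₀ (by positivity)
  have : (1 + e) ^ (64 : ℤ) = (1 + e) ^ 64 := by norm_cast
  rw [this]
  exact pow_le_pow_right₀ (by linarith) (by omega)

/-- pointwise lower bound -/
theorem pointwise {x e : ℝ} (he : 0 < e) (h1 : -1 ≤ x) (h2 : x ≤ 1) :
    Real.log ((2 + e) / (1 + e)) + (1 + e) ^ (-64 : ℤ) * Um x ≤
      1 / 2 * (Real.log (2 + e) - Real.log (1 - x + e)) +
        1 / 2 * (Real.log (2 + e) - Real.log (1 + x + e)) := by
  have hu : |x / (1 + e)| < 1 := by
    rw [abs_div, abs_of_pos (by linarith : (0 : ℝ) < 1 + e), div_lt_one (by linarith)]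
    have := abs_le.2 ⟨h1, h2⟩
    linarith
  have h3 := neg_log_ge hu
  have h4 := Um_scale (x := x) he
  have h5 : Real.log (1 - (x / (1 + e)) ^ 2) =
      Real.log (1 - x + e) + Real.log (1 + x + e) - 2 * Real.log (1 + e) := by
    have e1 : 1 - (x / (1 + e)) ^ 2 = (1 - x + e) * (1 + x + e) / (1 + e) ^ 2 := by
      have : (1 + e) ≠ 0 := by linarith
      field_simp
      ring
    rw [e1, Real.log_div (by
      have a1 : 0 < 1 - x + e := by linarith
      have a2 : 0 < 1 + x + e := by linarith
      positivity) (by positivity), Real.log_mul (by linarith) (by linarith), Real.log_pow]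
    push_cast
    ring
  rw [Real.log_div (by linarith) (by linarith)]
  rw [h5] at h3
  linarith

theorem Um_continuous : Continuous Um := by
  unfold Um
  fun_prop

theorem RR_lower (tri : S_TRI) {h : ℝ → ℝ} (hh : ContDiff ℝ 1 h) {e : ℝ} (he : 0 < e) :
    Real.log ((2 + e) / (1 + e)) * (∫ x in (-1 : ℝ)..1, h x ^ 2) +
      (1 + e) ^ (-64 : ℤ) * (∫ x in (-1 : ℝ)..1, Um x * h x ^ 2) ≤
      1 / 2 * ∫ s in (0 : ℝ)..2, RR h s / s := by
  have hc : Continuous h := hh.continuous
  have hq : Continuous (fun x => h x ^ 2) := by fun_prop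
  have hU := Um_continuous
  have hk := ke_continuous he
  have hR := RR_continuous hh
  have i1 : ∀ a b : ℝ, IntervalIntegrable (fun x => h x ^ 2) volume a b := fun a b =>
    hq.intervalIntegrable a b
  have hp : Continuous (fun u : ℝ => ∫ x in (-1 : ℝ)..u, h x ^ 2) :=
    intervalIntegral.continuous_primitive i1 _
  have hp1 : Continuous (fun s : ℝ => ∫ x in (1 - s)..1, h x ^ 2) := by
    have : (fun s : ℝ => ∫ x in (1 - s)..1, h x ^ 2) =
        fun s => (∫ x in (-1 : ℝ)..1, h x ^ 2) - (∫ x in (-1 : ℝ)..(1 - s), h x ^ 2) := by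
      funext s
      rw [← intervalIntegral.integral_add_adjacent_intervals (i1 (-1) (1 - s)) (i1 (1 - s) 1)]
      ring
    rw [this]
    exact continuous_const.sub (hp.comp (by fun_prop))
  have hp2 : Continuous (fun s : ℝ => ∫ x in (-1 : ℝ)..(s - 1), h x ^ 2) :=
    hp.comp (by fun_prop)
  -- lower bound by the regularised kernel
  have s1 : ∫ s in (0 : ℝ)..2, ke e s * RR h s ≤ ∫ s in (0 : ℝ)..2, RR h s / s := by
    apply intervalIntegral.integral_mono_on (by norm_num)
      ((hk.mul hR).intervalIntegrable _ _) (RRdiv_integrable hh)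
    intro s hs
    change ke e s * RR h s ≤ RR h s / s
    rcases eq_or_lt_of_le hs.1 with h0 | h0
    · rw [← h0]
      have : RR h 0 = 0 := by
        unfold RR
        norm_num
      rw [this]
      simp
    · unfold ke
      rw [abs_of_pos h0, div_eq_mul_inv (RR h s) s, mul_comm (RR h s)]
      apply mul_le_mul_of_nonneg_right _ (RR_nonneg hs.1)
      rw [one_div]
      exact inv_anti₀ h0 (by linarith)
  have s2 : ∫ s in (0 : ℝ)..2, ke e s * RR h s =
      (∫ x in (-1 : ℝ)..1, h x ^ 2 * (Real.log (2 + e) - Real.log (1 - x + e))) +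
      ∫ x in (-1 : ℝ)..1, h x ^ 2 * (Real.log (2 + e) - Real.log (1 + x + e)) := by
    rw [← part1 tri hq he, ← part2 tri hq he, ← intervalIntegral.integral_add]
    · apply intervalIntegral.integral_congr
      intro s _
      simp only [RR]
      ring
    · exact (hk.mul hp1).intervalIntegrable _ _
    · exact (hk.mul hp2).intervalIntegrable _ _
  have l1 : ContinuousOn (fun x => h x ^ 2 * (Real.log (2 + e) - Real.log (1 - x + e)))
      (uIcc (-1 : ℝ) 1) := by
    apply ContinuousOn.mul hq.continuousOn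
    apply ContinuousOn.sub continuousOn_const
    apply ContinuousOn.log (by fun_prop)
    intro x hx
    rw [uIcc_of_le (by norm_num)] at hx
    linarith [hx.2]
  have l2 : ContinuousOn (fun x => h x ^ 2 * (Real.log (2 + e) - Real.log (1 + x + e)))
      (uIcc (-1 : ℝ) 1) := by
    apply ContinuousOn.mul hq.continuousOn
    apply ContinuousOn.sub continuousOn_const
    apply ContinuousOn.log (by fun_prop)
    intro x hx
    rw [uIcc_of_le (by norm_num)] at hx
    linarith [hx.1]
  have s3 : Real.log ((2 + e) / (1 + e)) * (∫ x in (-1 : ℝ)..1, h x ^ 2) +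
      (1 + e) ^ (-64 : ℤ) * (∫ x in (-1 : ℝ)..1, Um x * h x ^ 2) ≤
      1 / 2 * ((∫ x in (-1 : ℝ)..1, h x ^ 2 * (Real.log (2 + e) - Real.log (1 - x + e))) +
      ∫ x in (-1 : ℝ)..1, h x ^ 2 * (Real.log (2 + e) - Real.log (1 + x + e))) := by
    rw [← intervalIntegral.integral_const_mul, ← intervalIntegral.integral_const_mul,
      ← intervalIntegral.integral_add, ← intervalIntegral.integral_add l1.intervalIntegrable
        l2.intervalIntegrable, ← intervalIntegral.integral_const_mul]
    · apply intervalIntegral.integral_mono_on (by norm_num)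
      · exact (by fun_prop : Continuous fun x => Real.log ((2 + e) / (1 + e)) * h x ^ 2 +
          (1 + e) ^ (-64 : ℤ) * (Um x * h x ^ 2)).intervalIntegrable _ _
      · exact (continuousOn_const.mul (l1.add l2)).intervalIntegrable
      · intro x hx
        have := mul_le_mul_of_nonneg_left (pointwise he hx.1 hx.2) (sq_nonneg (h x))
        linarith
    · exact (by fun_prop : Continuous fun x =>
        Real.log ((2 + e) / (1 + e)) * h x ^ 2).intervalIntegrable _ _
    · exact (by fun_prop : Continuous fun x =>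
        (1 + e) ^ (-64 : ℤ) * (Um x * h x ^ 2)).intervalIntegrable _ _
  rw [← s2] at s3
  linarith

/-- **WP-EN** -/
theorem en : S_TRI → S_EN := by
  intro tri h hh hz
  have hc : Continuous h := hh.continuous
  have hU := Um_continuous
  have s1 : ∫ s in (0 : ℝ)..2, (GG h 0 - GG h s) / s =
      1 / 2 * EE h + 1 / 2 * ∫ s in (0 : ℝ)..2, RR h s / s := by
    rw [← G1_integral tri hh, ← intervalIntegral.integral_const_mul,
      ← intervalIntegral.integral_const_mul, ← intervalIntegral.integral_add]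
    · apply intervalIntegral.integral_congr_ae
      refine Filter.Eventually.of_forall ?_
      intro s hs
      rw [uIoc_of_le (by norm_num)] at hs
      exact GG_sub hh hz hs.1 hs.2
    · exact (continuous_const.mul (G1_continuous hh)).intervalIntegrable _ _
    · exact (RRdiv_integrable hh).const_mul _
  have s2 : (∫ x in (-1 : ℝ)..1, (Real.log 2 + Um x) * h x ^ 2) =
      Real.log 2 * (∫ x in (-1 : ℝ)..1, h x ^ 2) + ∫ x in (-1 : ℝ)..1, Um x * h x ^ 2 := by
    rw [← intervalIntegral.integral_const_mul, ← intervalIntegral.integral_add]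
    · apply intervalIntegral.integral_congr
      intro x _
      simp only
      ring
    · exact (by fun_prop : Continuous fun x => Real.log 2 * h x ^ 2).intervalIntegrable _ _
    · exact (by fun_prop : Continuous fun x => Um x * h x ^ 2).intervalIntegrable _ _
  rw [s1, s2]
  have hlim : Filter.Tendsto (fun e : ℝ =>
      Real.log ((2 + e) / (1 + e)) * (∫ x in (-1 : ℝ)..1, h x ^ 2) +
      (1 + e) ^ (-64 : ℤ) * (∫ x in (-1 : ℝ)..1, Um x * h x ^ 2)) (nhdsWithin 0 (Ioi 0))
      (nhds (Real.log 2 * (∫ x in (-1 : ℝ)..1, h x ^ 2) +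
        ∫ x in (-1 : ℝ)..1, Um x * h x ^ 2)) := by
    apply Filter.Tendsto.mono_left _ nhdsWithin_le_nhds
    have hcont : ContinuousAt (fun e : ℝ =>
      Real.log ((2 + e) / (1 + e)) * (∫ x in (-1 : ℝ)..1, h x ^ 2) +
      (1 + e) ^ (-64 : ℤ) * (∫ x in (-1 : ℝ)..1, Um x * h x ^ 2)) 0 := by
      apply ContinuousAt.add
      · apply ContinuousAt.mul _ continuousAt_const
        apply ContinuousAt.log
        · apply ContinuousAt.div (by fun_prop) (by fun_prop)
          norm_num
        · norm_num
      · apply ContinuousAt.mul _ continuousAt_const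
        apply ContinuousAt.zpow₀ (by fun_prop)
        left
        norm_num
    have := hcont.tendsto
    simpa using this
  have key : Real.log 2 * (∫ x in (-1 : ℝ)..1, h x ^ 2) + (∫ x in (-1 : ℝ)..1, Um x * h x ^ 2) ≤
      1 / 2 * ∫ s in (0 : ℝ)..2, RR h s / s := by
    apply le_of_tendsto hlim
    filter_upwards [self_mem_nhdsWithin] with e he
    exact RR_lower tri hh he
  linarith

end Pool.Agent.W836.WP
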